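import Pool.Agent.V11288.HS.EC

/-!
# Elliptic curves over number fields: zero-free half planes and the absolute values of the Euler products

Let `E : y² = x³ + a x + b` be an elliptic curve over a number field `K`, `a, b ∈ 𝓞_K` (in particular the base
change of an elliptic curve over `ℚ`), such that `L(E/K, s)` has a continuation `G` to a half plane
`Re s > 1 - η` with polynomial growth (for example an entire continuation with the functional equation).
For the primes `v` not dividing `6 (4 a³ + 27 b²)` and `k ≥ 1` let `a(v, k) = N v^k + 1 - #E(𝔽_{v^k})` (so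
`a(v, 0) = 2`, `a(v, 1) = a_v = N v - N_v`, `N_v` affine points modulo `v`, and
`a(v, k+2) = a_v a(v, k+1) - N v a(v, k)`).  For real `σ`, `τ` and `Y > 1` let

`log |P_{σ+iτ}(Y)| = ∑_{N v^k ≤ Y} Re (a(v, k) / (k N v^{k(σ + iτ)}))`,

the logarithm of the absolute value of the partial Euler product of `L(E/K, s)` at the point `σ + iτ` over all
finite fields (places of `K` and their unramified extensions) with at most `Y` elements.

It is shown for ALL `σ ≥ 1`, all real `τ`, `ρ` and all `A > 0`: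

1. The integral `∫_1^∞ (log |P_{σ+iτ}(Y)| + ρ (log log Y + γ) - log A)² dY/Y` converges IF AND ONLY IF
   `L(E/K, s)` has no zeros with `Re s > σ`, `ρ` is the order `m` of the zero at `σ + iτ` and `A` is the
   absolute value of the leading coefficient there, that is `|G(s)| / |s - (σ + iτ)|^m → A` for
   `s → σ + iτ`.  (For `σ = 1`: IF AND ONLY IF the Riemann hypothesis for `E/K` holds and ... .)

2. In this case there is the formula

`∫_1^∞ (log |P_{σ+iτ}(Y)| + ρ (log log Y + γ) - log A)² dY/Y =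
 (1/(4π)) ∫_{-∞}^∞ (log |G(σ + i(τ+t))| + log |G(σ + i(τ-t))| - 2ρ log |t| - 2 log A)² dt/t²`.

3. Hence for every `σ ≥ 1` the following are equivalent: there are no zeros with `Re s > σ`; the absolute
   values of the partial Euler products converge in mean square (after division by `(e^γ log Y)^{-ρ}`) at ONE
   point of the line `Re s = σ`; the same at ALL points of this line.

Proof.  `G(σ + iτ + s) conj G(σ + iτ + conj s)` is an Euler product with real traces, of order `2m` at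
`s = 0` and with leading coefficient the square of the absolute value.  For such products the mean square
deviation of the logarithm is the `H²`-norm of `(log Ψ(s) - 2ρ log s - 2 log A)/s` in the half plane
`Re s > 0`, and this is twice the `L²`-norm of the imaginary part of the boundary function
(`Pool.Agent.V11288.HS`); convergence in the absence of zeros is the mean square theorem of the library
(`Pool.Agent.TH270.MS`), which needs polynomial growth to the left of the line.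
-/

set_option autoImplicit false

namespace Pool.Agent.Results.MP_fb225e_nt.HalfPlanesOverK

open Filter Topology MeasureTheory Set NumberField IsDedekindDomain

variable {K : Type} [Field K] [NumberField K]

/-- The norm of `v`. -/
noncomputable def nrm (v : HeightOneSpectrum (𝓞 K)) : ℕ := Ideal.absNorm v.asIdeal

/-- `v` does not divide `6 (4 a³ + 27 b²)`. -/
def Good (a b : 𝓞 K) (v : HeightOneSpectrum (𝓞 K)) : Prop :=
  6 * (4 * a ^ 3 + 27 * b ^ 2) ∉ v.asIdeal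

/-- The number of affine points of `y² = x³ + a x + b` modulo `v`. -/
noncomputable def pts (a b : 𝓞 K) (v : HeightOneSpectrum (𝓞 K)) : ℕ :=
  Nat.card {P : (𝓞 K ⧸ v.asIdeal) × (𝓞 K ⧸ v.asIdeal) //
    P.2 ^ 2 = P.1 ^ 3 + Ideal.Quotient.mk v.asIdeal a * P.1 + Ideal.Quotient.mk v.asIdeal b}

/-- The Euler factor `(1 - a_v (N v)^{-s} + (N v)^{1 - 2s})⁻¹`, `a_v = N v - N_v`. -/
noncomputable def factor (a b : 𝓞 K) (v : HeightOneSpectrum (𝓞 K)) (s : ℂ) : ℂ :=
  (1 - ((nrm v : ℂ) - pts a b v) * (nrm v : ℂ) ^ (-s) + (nrm v : ℂ) ^ (1 - 2 * s))⁻¹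

/-- `G` is a continuation of `L(E/K, s)` to `Re s > 1 - η` with polynomial growth (the Euler factors at the
finitely many primes which are not good have neither zeros nor poles for `Re s ≥ 1`). -/
structure IsContinuation (a b : 𝓞 K) (G : ℂ → ℂ) (η C : ℝ) (κ : ℕ) : Prop where
  pos : 0 < η
  diff : ∀ s : ℂ, 1 - η < s.re → DifferentiableAt ℂ G s
  growth : ∀ s : ℂ, 1 - η < s.re → ‖G s‖ ≤ C * (1 + ‖s‖) ^ κ
  prod : ∀ s : ℂ, 3 / 2 < s.re → HasProd (fun v : {v // Good a b v} => factor a b v.1 s) (G s)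

/-- `a(v, k) = N v^k + 1 - #E(𝔽_{v^k})`, the sum of the `k`-th powers of the eigenvalues of Frobenius. -/
noncomputable def trace (a b : 𝓞 K) (v : HeightOneSpectrum (𝓞 K)) : ℕ → ℝ
  | 0 => 2
  | 1 => (nrm v : ℝ) - pts a b v
  | k + 2 => ((nrm v : ℝ) - pts a b v) * trace a b v (k + 1) - nrm v * trace a b v k

/-- `log |P_{σ+iτ}(Y)|`: the sum of `Re (a(v, k) / (N v)^(k (σ + iτ))) / k` over all good primes `v` and `k ≥ 1`
(here `k = v.2 + 1`) with `(N v)^k ≤ Y`. -/
noncomputable def logAbsP (a b : 𝓞 K) (σ τ Y : ℝ) : ℝ :=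
  ∑ᶠ (v : {v // Good a b v} × ℕ) (_ : (nrm v.1.1 : ℝ) ^ (v.2 + 1) ≤ Y),
    ((trace a b v.1.1 (v.2 + 1) : ℂ) /
      (nrm v.1.1 : ℂ) ^ (((v.2 + 1 : ℕ) : ℂ) * (σ + τ * Complex.I))).re / ((v.2 : ℝ) + 1)

/-- `∫_1^∞ (log |P_{σ+iτ}(Y)| + ρ (γ + log log Y) - log A)² dY/Y ∈ [0, ∞]`. -/
noncomputable def meanSquare (a b : 𝓞 K) (σ τ ρ A : ℝ) : ENNReal :=
  ∫⁻ Y in Ioi (1 : ℝ), ENNReal.ofReal
    ((logAbsP a b σ τ Y + ρ * (Real.eulerMascheroniConstant + Real.log (Real.log Y)) - Real.log A) ^ 2 / Y)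

/-- `(1/(4π)) ∫_{-∞}^∞ (log |G(σ + i(τ+t))| + log |G(σ + i(τ-t))| - 2 ρ log |t| - 2 log A)² dt/t²`, in
`[0, ∞]`. -/
noncomputable def lineIntegral (G : ℂ → ℂ) (σ τ ρ A : ℝ) : ENNReal :=
  ENNReal.ofReal (4 * Real.pi)⁻¹ * ∫⁻ t : ℝ, ENNReal.ofReal
    ((Real.log ‖G (σ + ((τ + t : ℝ) : ℂ) * Complex.I)‖ +
      Real.log ‖G (σ + ((τ - t : ℝ) : ℂ) * Complex.I)‖ -
      2 * ρ * Real.log |t| - 2 * Real.log A) ^ 2 / t ^ 2)

/-- `A` is the absolute value of the leading coefficient of `G` at `σ + iτ`, and `m` the order: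
`|G(s)| / |s - (σ + iτ)|^m → A` for `s → σ + iτ`. -/
def LeadingAt (G : ℂ → ℂ) (σ τ : ℝ) (m : ℕ) (A : ℝ) : Prop :=
  Tendsto (fun s : ℂ => ‖G s‖ / ‖s - (σ + τ * Complex.I)‖ ^ m) (𝓝[≠] (σ + τ * Complex.I)) (𝓝 A)

/-- `G` has no zeros with `Re s > σ`. -/
def NoZeros (G : ℂ → ℂ) (σ : ℝ) : Prop := ∀ s : ℂ, σ < s.re → G s ≠ 0

open Pool.Agent.TH942.ES
open Pool.Agent.V11288
open Pool.Agent.H921R2.TatePole (nm two_le_nm)

theorem trace_eq (a b : 𝓞 K) (v : {v // GoodV a b v}) (j : ℕ) (s : ℂ) :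
    (∑ i, zv (fun v : {v // GoodV a b v} => nm v.1) (alV a b) v i ^ j) *
      xv (fun v : {v // GoodV a b v} => nm v.1) v ((j : ℂ) * s) =
    ((trace a b v.1 j : ℝ) : ℂ) / ((nm v.1 : ℕ) : ℂ) ^ ((j : ℂ) * (((1 : ℝ) : ℂ) + s)) := by
  have hn : (0 : ℝ) < nm v.1 := by
    have := two_le_nm v.1
    exact_mod_cast (by omega : 0 < nm v.1)
  have h1 := HS.trace_of (N := fun v : {v // GoodV a b v} => nm v.1) (α := alV a b) (v := v) hn 1 j s
  rw [h1]
  congr 1
  have h2 : (((nm v.1 : ℝ) ^ ((1 : ℝ) - 1 / 2) : ℝ) : ℂ) = ((√(nm v.1 : ℝ) : ℝ) : ℂ) := by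
    rw [Real.sqrt_eq_rpow]
    norm_num
  have hs := sqrt_nm_pos v.1
  have h3 : 2 * trV a b v.1 * √(nm v.1 : ℝ) = (nm v.1 : ℝ) - ptsV a b v.1 := by
    unfold trV
    field_simp
  have h4 := HS.rt_trace (trV_abs v.2) hn.le (T := trace a b v.1) rfl
    (by rw [h3]; rfl) (fun j => by rw [h3]; rfl) j
  rw [← h4]
  refine Finset.sum_congr rfl fun i _ => ?_
  rw [h2]
  rfl

theorem lead_iff (G : ℂ → ℂ) (σ τ : ℝ) (m : ℕ) (A : ℝ) : LeadingAt G σ τ m A ↔
    Tendsto (fun s : ℂ => ‖G (1 + (s + τ * Complex.I + ((σ - 1 : ℝ) : ℂ)))‖ / ‖s‖ ^ m) (𝓝[≠] 0)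
      (𝓝 A) := by
  unfold LeadingAt
  have h1 : map (fun s : ℂ => s + (σ + τ * Complex.I)) (𝓝[≠] 0) = 𝓝[≠] (σ + τ * Complex.I) := by
    have : map (fun s : ℂ => s + (σ + τ * Complex.I)) (𝓝[≠] 0) =
        𝓝[≠] (0 + (σ + τ * Complex.I)) := map_add_right_nhdsNE
    rwa [zero_add] at this
  rw [← h1, tendsto_map'_iff]
  refine tendsto_congr fun s => ?_
  simp only [Function.comp_apply, add_sub_cancel_right]
  congr 3
  push_cast
  ring

/-- **Zero-free half planes of `L(E/K, s)` and the absolute values of the partial Euler products.** -/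
theorem result (K : Type) [Field K] [NumberField K] (a b : 𝓞 K) (G : ℂ → ℂ) (η C : ℝ) (κ : ℕ)
    (hG : IsContinuation a b G η C κ) (σ : ℝ) (hσ : 1 ≤ σ) :
    (∀ τ ρ A : ℝ, 0 < A →
      ((NoZeros G σ ∧ ∃ m : ℕ, ρ = m ∧ LeadingAt G σ τ m A) ↔ meanSquare a b σ τ ρ A < ⊤) ∧
      (meanSquare a b σ τ ρ A < ⊤ → meanSquare a b σ τ ρ A = lineIntegral G σ τ ρ A)) ∧
    List.TFAE [
      NoZeros G σ,
      ∀ τ : ℝ, ∃ ρ A : ℝ, 0 < A ∧ meanSquare a b σ τ ρ A < ⊤,
      ∃ τ ρ A : ℝ, 0 < A ∧ meanSquare a b σ τ ρ A < ⊤] := by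
  have P := HS.curve_pc (a := a) (b := b) hG.pos hG.diff hG.growth hG.prod
  obtain ⟨M, hM, hcrit, hline, hlead⟩ := P.crit (T := fun v j => ((trace a b v.1 j : ℝ) : ℂ)) (c := 1)
    (fun v j s => trace_eq a b v j s) (δ := σ - 1) (by linarith)
  have hms : ∀ τ ρ A : ℝ, meanSquare a b σ τ ρ A = M τ ρ (Real.log A) := by
    intro τ ρ A
    rw [hM]
    unfold meanSquare logAbsP
    have e1 : (((1 : ℝ) : ℂ) + (((σ - 1 : ℝ) : ℂ) + τ * Complex.I)) = (σ : ℂ) + τ * Complex.I := by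
      push_cast
      ring
    rw [e1]
    rfl
  have hz : NoZeros G σ ↔ ∀ s : ℂ, 0 < s.re → G (1 + (s + ((σ - 1 : ℝ) : ℂ))) ≠ 0 := by
    constructor
    · intro h s hs
      refine h _ ?_
      simp only [Complex.add_re, Complex.one_re, Complex.ofReal_re]
      linarith
    · intro h s hs
      have h1 := h (s - σ) (by
        rw [Complex.sub_re, Complex.ofReal_re]
        linarith)
      have e1 : (1 : ℂ) + (s - σ + ((σ - 1 : ℝ) : ℂ)) = s := by
        push_cast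
        ring
      rwa [e1] at h1
  have hiff : ∀ τ ρ A : ℝ, 0 < A →
      ((NoZeros G σ ∧ ∃ m : ℕ, ρ = m ∧ LeadingAt G σ τ m A) ↔ meanSquare a b σ τ ρ A < ⊤) := by
    intro τ ρ A hA
    rw [hms, ← hcrit τ ρ hA, hz]
    simp only [lead_iff]
  refine ⟨fun τ ρ A hA => ⟨hiff τ ρ A hA, fun h => ?_⟩, ?_⟩
  · rw [hms] at h ⊢
    rw [hline τ ρ (Real.log A) h]
    unfold lineIntegral
    have e1 : ∀ x : ℝ, (1 : ℂ) + ((x : ℂ) * Complex.I + ((σ - 1 : ℝ) : ℂ)) = σ + (x : ℂ) * Complex.I := by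
      intro x
      push_cast
      ring
    simp only [e1]
  · tfae_have 1 → 2 := by
      intro h τ
      obtain ⟨m, A, hA, hl⟩ := hlead τ
      refine ⟨m, A, hA, ?_⟩
      rw [← hiff τ m A hA]
      exact ⟨h, m, rfl, (lead_iff _ σ τ m A).2 hl⟩
    tfae_have 2 → 3 := by
      intro h
      exact ⟨0, h 0⟩
    tfae_have 3 → 1 := by
      rintro ⟨τ, ρ, A, hA, h⟩
      exact ((hiff τ ρ A hA).2 h).1
    tfae_finish

end Pool.Agent.Results.MP_fb225e_nt.HalfPlanesOverK
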