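import Pool.Agent.V11271.LU.Ell

set_option autoImplicit false

/-!
# MP_fb225e_nt: Li coefficients with a far centre, for elliptic curves over all abelian number fields

`E : y² = x³ + a x + b` is an elliptic curve over `ℚ` of conductor `N`, and `K` an abelian number field whose
conductor is prime to `N`. By the theorem of Kronecker and Weber `K` is given by its group `G` of
Dirichlet characters modulo `M` (any `M` such that `K ⊆ ℚ(ζ_M)`); `[K : ℚ]` is the order of `G`, and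
`Λ(E/K, s) = A^(s/2) ((2π)^(-s) Γ(s))^[K : ℚ] L(E/K, s)` is the product of the completed L-functions of the twists
of `E` by the primitive characters associated with the `χ` in `G`, with the conductor
`A_K = ∏ N f_χ² = N^[K : ℚ] disc(K)²` (as in the starting file NewmanAbelianFields, whose definitions we repeat).

For a real number `A` the Li coefficients of `Λ = Λ(E/K, s)` with centre `1 + A` are
`liCoeff Λ A n = ∑ Re (1 - ((ρ - 1 - A) / (ρ - 1 + A)) ^ n)`, the sum over the zeros of `Λ` with multiplicity. The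
Riemann hypothesis for `L(E/K, s)` says that all of them are nonnegative. We let the centre go to infinity
and ask for the range `1 ≤ n ≤ κ A log A` of positivity. For every `κ < 1` there is ONE `A0` such that for all
`E` and all `K` the coefficients in this range are positive for `A ≥ A0`, of size at least
`c n A ([K : ℚ] + log A_K)`. If the zeros of `Λ(E/K, s)` have real part at most `1 + h`, this holds for
`κ < 1/(2h)`; conversely positivity for one pair in this range (for large `A`) implies that its zeros have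
real part at most `1 + 1/κ`. So the Riemann hypothesis for one pair, and for all pairs together, is
equivalent to positivity (to uniform positivity) in all such ranges.
-/

open Complex UpperHalfPlane MatrixGroups CongruenceSubgroup

namespace Pool.Agent.Results.MP_fb225e_nt.LiHorizonAbelian

/-- The coefficient `a_p` of `E : y² = x³ + a x + b` at a prime `p ∤ 2 (4a³ + 27b²)`: `p` minus the
number of pairs `(x, y)` modulo `p` with `y² ≡ x³ + a x + b (mod p)`. -/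
noncomputable def ap (a b : ℤ) (p : ℕ) : ℤ :=
  (p : ℤ) - (((Finset.range p ×ˢ Finset.range p).filter
    (fun xy : ℕ × ℕ => (p : ℤ) ∣ (xy.2 : ℤ) ^ 2 -
      ((xy.1 : ℤ) ^ 3 + a * (xy.1 : ℤ) + b))).card : ℤ)

/-- The `n`-th Fourier coefficient of `f`. -/
noncomputable def coef {N : ℕ} (f : CuspForm (Gamma0 N : Subgroup (GL (Fin 2) ℝ)) 2) (n : ℕ) : ℂ :=
  (qExpansion 1 f).coeff n

/-- `f ∈ S_2(Γ₀(N))` is the newform of the elliptic curve `E : y² = x³ + a x + b` of conductor `N` and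
root number `w`: the Fourier coefficients `c(n)` of `f` are real with `c(1) = 1`, they satisfy the
Hecke relations `c(mn) = c(m) c(n)` for coprime `m`, `n` and `c(p^(j+2)) = c(p) c(p^(j+1)) - p c(p^j)`
(without the last term if `p ∣ N`), `f(-1/(Nτ)) = -w N τ² f(τ)`, `c(p) = a_p(E)` for all primes
`p ∤ 2 (4a³ + 27b²)`, `|c(p)| ≤ 2 √p` for all `p ∤ N` (Hasse) and `c(p) = 0, 1, -1` for `p ∣ N`. -/
structure IsFormOf (a b : ℤ) (N : ℕ) (f : CuspForm (Gamma0 N : Subgroup (GL (Fin 2) ℝ)) 2) (w : ℝ) :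
    Prop where
  one : coef f 1 = 1
  real : ∀ n, (coef f n).im = 0
  mul : ∀ m n : ℕ, Nat.Coprime m n → coef f (m * n) = coef f m * coef f n
  pow : ∀ p j : ℕ, p.Prime → coef f (p ^ (j + 2)) = coef f p * coef f (p ^ (j + 1)) -
      (if p ∣ N then 0 else (p : ℂ) * coef f (p ^ j))
  sign : w = 1 ∨ w = -1
  fricke : ∀ τ τ' : ℍ, (τ' : ℂ) * ((N : ℂ) * (τ : ℂ)) = -1 →
    f τ' = -(w : ℂ) * (N : ℂ) * (τ : ℂ) ^ 2 * f τ
  points : ∀ p : ℕ, p.Prime → ¬ (p : ℤ) ∣ 2 * (4 * a ^ 3 + 27 * b ^ 2) → coef f p = (ap a b p : ℂ)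
  good : ∀ p : ℕ, p.Prime → ¬ p ∣ N → ‖coef f p‖ ≤ 2 * Real.sqrt p
  bad : ∀ p : ℕ, p.Prime → p ∣ N → coef f p = 0 ∨ coef f p = 1 ∨ coef f p = -1

/-- The completed L-function of the twist of `E` by `χ` modulo `q`, for `Re s > 3/2`:
`(√N q / 2π)^s Γ(s) ∑ c(n) χ(n) n^(-s)`. -/
noncomputable def twist {N : ℕ} (f : CuspForm (Gamma0 N : Subgroup (GL (Fin 2) ℝ)) 2) {q : ℕ}
    (χ : DirichletCharacter ℂ q) (s : ℂ) : ℂ :=
  ((Real.sqrt N * q / (2 * Real.pi) : ℝ) : ℂ) ^ s * Complex.Gamma s *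
    ∑' n : ℕ, coef f (n + 1) * χ ((n + 1 : ℕ) : ZMod q) * ((n + 1 : ℕ) : ℂ) ^ (-s)

/-- A pair `(E, K)`: the elliptic curve `E : y² = x³ + a x + b` of conductor `N` with its newform `f` and root
number `w`, and the abelian number field `K` with the group `G` of Dirichlet characters modulo `M`, the
conductors being coprime. -/
structure Pair where
  /-- the coefficients of `E` -/
  a : ℤ
  /-- the coefficients of `E` -/
  b : ℤ
  disc : 4 * a ^ 3 + 27 * b ^ 2 ≠ 0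
  /-- the conductor of `E` -/
  N : ℕ
  N_pos : N ≠ 0
  /-- the newform of `E` -/
  f : CuspForm (Gamma0 N : Subgroup (GL (Fin 2) ℝ)) 2
  /-- the root number of `E` -/
  w : ℝ
  form : IsFormOf a b N f w
  /-- the modulus for `K` -/
  M : ℕ
  M_pos : M ≠ 0
  /-- the group of characters of `K` -/
  G : Subgroup (DirichletCharacter ℂ M)
  /-- `[K : ℚ]` is finite -/
  fin : Fintype G
  coprime : Nat.Coprime M N

/-- the degree `[K : ℚ]` -/
def degree (P : Pair) : ℕ := letI := P.fin; Fintype.card P.G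

/-- The conductor `A_K = ∏ N f_χ² = N^[K : ℚ] disc(K)²` of `L(E/K, s)`. -/
noncomputable def conductor (P : Pair) : ℝ :=
  letI := P.fin
  ∏ χ : P.G, ((P.N : ℝ) * ((χ : DirichletCharacter ℂ P.M).conductor : ℝ) ^ 2)

/-- `Λ = Λ(E/K, s)`: `Λ` is entire and, for large real part, it is the product over `χ` in `G` of the
completed L-functions of the twists of `E` by the primitive character associated with `χ`. -/
def IsCompleted (P : Pair) (Λ : ℂ → ℂ) : Prop :=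
  letI := P.fin
  Differentiable ℂ Λ ∧ ∃ σ : ℝ, ∀ s : ℂ, σ ≤ s.re →
    Λ s = ∏ χ : P.G, twist P.f (χ : DirichletCharacter ℂ P.M).primitiveCharacter s

/-- The Li coefficients of `Λ` with centre `1 + A`. The sum is over all complex numbers `s`, weighted with
the multiplicity of `s` as a zero of `Λ`, so only the zeros contribute; it converges absolutely for `A ≥ 2`
(`summable` below). -/
noncomputable def liCoeff (Λ : ℂ → ℂ) (A : ℝ) (n : ℕ) : ℝ :=
  ∑' s : ℂ, (analyticOrderNatAt Λ s : ℝ) * (1 - ((s - 1 - A) / (s - 1 + A)) ^ n).re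

/-- For all large `A` the first `κ A log A` coefficients are positive. -/
def PositiveUpTo (Λ : ℂ → ℂ) (κ : ℝ) : Prop :=
  ∃ A0 : ℝ, ∀ A : ℝ, A0 ≤ A → ∀ n : ℕ, 1 ≤ n → n ≤ κ * A * Real.log A → 0 < liCoeff Λ A n

/-- all zeros of `Λ` are on the line `Re s = 1` -/
def OnLine (Λ : ℂ → ℂ) : Prop := ∀ s : ℂ, Λ s = 0 → s.re = 1

open Pool.Agent.V11271.LU

lemma isForm (P : Pair) : Pool.Agent.W169.HF.IsForm P.N P.f P.w :=
  { one := P.form.one
    real := P.form.real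
    mul := P.form.mul
    pow := P.form.pow
    sign := P.form.sign
    fricke := P.form.fricke
    good := P.form.good
    bad := fun p hp hpN => by
      have h1 : (1 : ℝ) ≤ Real.sqrt p := by
        rw [Real.one_le_sqrt]
        exact_mod_cast hp.one_le
      have h2 : ‖coef P.f p‖ ≤ 1 := by
        rcases P.form.bad p hp hpN with h | h | h <;> simp [h]
      exact h2.trans h1 }

theorem summable (P : Pair) {Λ : ℂ → ℂ} (hΛ : IsCompleted P Λ) {A : ℝ} (hA : 2 ≤ A) (n : ℕ) :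
    Summable fun s : ℂ => (analyticOrderNatAt Λ s : ℝ) * (1 - ((s - 1 - A) / (s - 1 + A)) ^ n).re := by
  have : NeZero P.N := ⟨P.N_pos⟩
  have : NeZero P.M := ⟨P.M_pos⟩
  letI := P.fin
  exact ell_summable P.G (isForm P) P.coprime hΛ hA n

theorem strip (P : Pair) {Λ : ℂ → ℂ} (hΛ : IsCompleted P Λ) {s : ℂ} (hs : Λ s = 0) : |s.re - 1| ≤ 1 / 2 := by
  have : NeZero P.N := ⟨P.N_pos⟩
  have : NeZero P.M := ⟨P.M_pos⟩
  letI := P.fin
  exact ell_strip P.G (isForm P) P.coprime hΛ hs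

theorem sufficient {h κ : ℝ} (hh : 0 < h) (hκ : 0 < κ) (hhκ : 2 * h * κ < 1) : ∃ c A0 : ℝ, 0 < c ∧ 2 ≤ A0 ∧
    ∀ (P : Pair) (Λ : ℂ → ℂ), IsCompleted P Λ → (∀ s : ℂ, Λ s = 0 → s.re ≤ 1 + h) → ∀ A : ℝ, A0 ≤ A → ∀ n : ℕ, 1 ≤ n →
      n ≤ κ * A * Real.log A → c * (degree P + Real.log (conductor P)) * (n * A) ≤ liCoeff Λ A n := by
  obtain ⟨c, A0, hc, hA0, H⟩ := ell_pos hh hκ hhκ
  refine ⟨c, A0, hc, hA0, fun P Λ hΛ hz A hA n hn hnA => ?_⟩
  have : NeZero P.N := ⟨P.N_pos⟩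
  have : NeZero P.M := ⟨P.M_pos⟩
  letI := P.fin
  exact H P.N P.f P.w (isForm P) P.M P.G P.coprime Λ hΛ hz A hA n hn hnA

theorem necessary (P : Pair) {Λ : ℂ → ℂ} (hΛ : IsCompleted P Λ) {κ : ℝ} (hκ : 0 < κ) (h : PositiveUpTo Λ κ)
    {s : ℂ} (hs : Λ s = 0) : |s.re - 1| ≤ 1 / κ := by
  have : NeZero P.N := ⟨P.N_pos⟩
  have : NeZero P.M := ⟨P.M_pos⟩
  letI := P.fin
  obtain ⟨A0, hA0⟩ := h
  exact ell_neg P.G (isForm P) P.coprime hΛ hκ ⟨A0, fun A hA n hn hnA => (hA0 A hA n hn hnA).le⟩ hs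

theorem exists_completed (P : Pair) : ∃ Λ : ℂ → ℂ, IsCompleted P Λ := by
  have : NeZero P.N := ⟨P.N_pos⟩
  have : NeZero P.M := ⟨P.M_pos⟩
  letI := P.fin
  exact ell_exists P.G (isForm P) P.coprime

lemma size_pos (P : Pair) : 0 < (degree P : ℝ) + Real.log (conductor P) := by
  have : NeZero P.N := ⟨P.N_pos⟩
  have : NeZero P.M := ⟨P.M_pos⟩
  letI := P.fin
  have := sz_pos P.G P.N
  have e : (degree P : ℝ) + Real.log (conductor P) = sz P.G P.N := rfl
  rw [e]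
  linarith

lemma pos_of {c : ℝ} (hc : 0 < c) (P : Pair) {A : ℝ} (hA : 2 ≤ A) {n : ℕ} (hn : 1 ≤ n) {x : ℝ}
    (h : c * (degree P + Real.log (conductor P)) * (n * A) ≤ x) : 0 < x := by
  refine lt_of_lt_of_le ?_ h
  have h1 : (0 : ℝ) < n := by exact_mod_cast hn
  have h2 := size_pos P
  have h3 : 0 < A := by linarith
  positivity

lemma line_of_all (P : Pair) {Λ : ℂ → ℂ} (hΛ : IsCompleted P Λ) (h : ∀ κ : ℝ, 0 < κ → PositiveUpTo Λ κ) :
    OnLine Λ := by
  intro s hs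
  have h1 : |s.re - 1| ≤ 0 := by
    apply le_of_forall_pos_le_add
    intro ε hε
    have := necessary P hΛ (κ := 1 / ε) (by positivity) (h _ (by positivity)) hs
    rwa [one_div_one_div, ← zero_add ε] at this
  have h3 := abs_nonpos_iff.mp h1
  linarith

lemma all_of_line {κ : ℝ} (hκ : 0 < κ) : ∃ A0 : ℝ, ∀ (P : Pair) (Λ : ℂ → ℂ), IsCompleted P Λ → OnLine Λ →
    ∀ A : ℝ, A0 ≤ A → ∀ n : ℕ, 1 ≤ n → n ≤ κ * A * Real.log A → 0 < liCoeff Λ A n := by
  obtain ⟨c, A0, hc, hA0, H⟩ := sufficient (h := 1 / (4 * κ)) (κ := κ) (by positivity) hκ (by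
    have : 2 * (1 / (4 * κ)) * κ = 1 / 2 := by field_simp; norm_num
    rw [this]
    norm_num)
  refine ⟨A0, fun P Λ hΛ hL A hA n hn hnA => pos_of hc P (hA0.trans hA) hn (H P Λ hΛ (fun s hs => ?_) A hA n hn hnA)⟩
  rw [hL s hs]
  have : 0 < 1 / (4 * κ) := by positivity
  linarith

/-- **Main theorem.** -/
theorem result :
    -- the completed L-functions exist
    (∀ P : Pair, ∃ Λ : ℂ → ℂ, IsCompleted P Λ) ∧
    -- zeros up to `1 + h`: uniform positivity for `κ < 1/(2h)`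
    (∀ h κ : ℝ, 0 < h → 0 < κ → 2 * h * κ < 1 → ∃ c A0 : ℝ, 0 < c ∧
      ∀ (P : Pair) (Λ : ℂ → ℂ), IsCompleted P Λ → (∀ s : ℂ, Λ s = 0 → s.re ≤ 1 + h) → ∀ A : ℝ, A0 ≤ A → ∀ n : ℕ, 1 ≤ n →
        n ≤ κ * A * Real.log A → c * (degree P + Real.log (conductor P)) * (n * A) ≤ liCoeff Λ A n) ∧
    -- unconditional uniform positivity for `κ < 1`
    (∀ κ : ℝ, 0 < κ → κ < 1 → ∃ c A0 : ℝ, 0 < c ∧
      ∀ (P : Pair) (Λ : ℂ → ℂ), IsCompleted P Λ → ∀ A : ℝ, A0 ≤ A → ∀ n : ℕ, 1 ≤ n →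
        n ≤ κ * A * Real.log A → c * (degree P + Real.log (conductor P)) * (n * A) ≤ liCoeff Λ A n) ∧
    -- zero-free regions from positivity
    (∀ (P : Pair) (Λ : ℂ → ℂ), IsCompleted P Λ → ∀ κ : ℝ, 0 < κ → PositiveUpTo Λ κ →
      ∀ s : ℂ, Λ s = 0 → |s.re - 1| ≤ 1 / κ) ∧
    -- the Riemann hypothesis for one pair
    (∀ (P : Pair) (Λ : ℂ → ℂ), IsCompleted P Λ → (OnLine Λ ↔ ∀ κ : ℝ, 0 < κ → PositiveUpTo Λ κ)) ∧
    -- the Riemann hypothesis for all pairs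
    ((∀ (P : Pair) (Λ : ℂ → ℂ), IsCompleted P Λ → OnLine Λ) ↔ ∀ κ : ℝ, 0 < κ → ∃ A0 : ℝ,
      ∀ (P : Pair) (Λ : ℂ → ℂ), IsCompleted P Λ → ∀ A : ℝ, A0 ≤ A → ∀ n : ℕ, 1 ≤ n →
        n ≤ κ * A * Real.log A → 0 < liCoeff Λ A n) := by
  refine ⟨exists_completed, fun h κ hh hκ hhκ => ?_, fun κ hκ hκ1 => ?_,
    fun P Λ hΛ κ hκ h s hs => necessary P hΛ hκ h hs, fun P Λ hΛ => ⟨fun h κ hκ => ?_, line_of_all P hΛ⟩,
    ⟨fun h κ hκ => ?_, fun h P Λ hΛ => line_of_all P hΛ fun κ hκ => ?_⟩⟩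
  · obtain ⟨c, A0, hc, _, H⟩ := sufficient hh hκ hhκ
    exact ⟨c, A0, hc, H⟩
  · obtain ⟨c, A0, hc, _, H⟩ := sufficient (h := 1 / 2) (κ := κ) (by norm_num) hκ (by linarith)
    refine ⟨c, A0, hc, fun P Λ hΛ A hA n hn hnA => H P Λ hΛ (fun s hs => ?_) A hA n hn hnA⟩
    have := (abs_le.mp (strip P hΛ hs)).2
    linarith
  · obtain ⟨A0, H⟩ := all_of_line hκ
    exact ⟨A0, fun A hA n hn hnA => H P Λ hΛ h A hA n hn hnA⟩
  · obtain ⟨A0, H⟩ := all_of_line hκ
    exact ⟨A0, fun P Λ hΛ A hA n hn hnA => H P Λ hΛ (h P Λ hΛ) A hA n hn hnA⟩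
  · obtain ⟨A0, H⟩ := h κ hκ
    exact ⟨A0, fun A hA n hn hnA => H P Λ hΛ A hA n hn hnA⟩

end Pool.Agent.Results.MP_fb225e_nt.LiHorizonAbelian
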