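import Pool.Agent.Results.MP_fb225e_nt.DerivativesDensityAbelian
import Pool.Agent.V11271.GR.Ab

/-!
# Zeros of `L(E/K, s)` off the critical line, `K` abelian: a log-free density theorem

Let `E` be an elliptic curve over `ℚ` of conductor `N`, `K` an abelian number field of conductor prime to `N` (given by
its group `G` of Dirichlet characters, `[K : ℚ] = card G`; for example `K = ℚ`), and `Λ(s) = Λ(E/K, s)` the completed
L-function of `E` over `K`, a function of degree `2 [K : ℚ]` (definitions `IsFormOf`, `IsCompleted` of the starting file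
`Pool.Agent.Results.MP_fb225e_nt.DerivativesDensityAbelian`).  The Riemann hypothesis for `L(E/K, s)` says that all zeros
of `Λ` are on the line `Re s = 1`.

We prove, without any hypothesis and for EVERY `c < 1`: the number of zeros `s` of `Λ` with `0 < Im s ≤ T` and
`|Re s - 1| ≥ δ`, counted with multiplicity, is at most `C T^(1 - c δ) log T`, for all `δ ≥ 0` and all `T ≥ 2`, where `C`
depends only on `E`, `K` and `c`.  The exponent does not depend on the degree of `K`.  In particular the number of zeros up
to height `T` at distance at least `h / log T` from the line is at most `C e^(-c h) T log T`: this is a proportion at most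
`C' e^(-c h)` of all zeros, so almost all zeros are within `h(T) / log T` of the line for every `h(T) → ∞`.

Proof: `Λ` is the product of the completed L-functions of the twists of the newform `f` of `E` by the primitive characters
belonging to `K`.  The starting modules `Pool.Agent.Y693.GL` verify the axioms of project GD2 (`Pool.Agent.Y671.GL`;
shifted convolution sums by Jutila's circle method) for these twists, whose coefficients are not real in general; the
density theorem of the starting modules `Pool.Agent.Y24.GL` was applied only to newforms with real coefficients (the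
Ramanujan function), where the growth in the lower half plane comes from the symmetry; here it comes from the twist by the
complex conjugate character.
-/

set_option autoImplicit false

open Complex UpperHalfPlane MatrixGroups CongruenceSubgroup
open scoped ComplexConjugate

namespace Pool.Agent.Results.MP_fb225e_nt.ZeroDensityAbelian

open Pool.Agent.Results.MP_fb225e_nt.DerivativesDensityAbelian (coef IsFormOf IsCompleted)

/-- The zeros of `Λ` with imaginary part in `(0, T]` and distance at least `δ` from the line `Re s = 1`. -/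
def Off (Λ : ℂ → ℂ) (δ T : ℝ) : Set ℂ := {s | Λ s = 0 ∧ δ ≤ |s.re - 1| ∧ 0 < s.im ∧ s.im ≤ T}

/-- The number of points of `A`, each counted with its multiplicity as a zero of `Λ`. -/
noncomputable def num (Λ : ℂ → ℂ) (A : Set ℂ) : ℕ := ∑ᶠ s ∈ A, analyticOrderNatAt Λ s

open Pool.Agent.V11271.GR in
lemma transfer {Λ : ℂ → ℂ} (hd : Differentiable ℂ Λ) (hD : Dens (fun z => Λ (1 + z)))
    (hne : ∃ z, Λ (1 + z) ≠ 0) {c : ℝ} (hc : c < 1) :
    ∃ C : ℝ, 0 < C ∧ ∀ δ T : ℝ, 0 ≤ δ → 2 ≤ T →
      (Off Λ δ T).Finite ∧ (num Λ (Off Λ δ T) : ℝ) ≤ C * T ^ (1 - c * δ) * Real.log T := by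
  obtain ⟨X, hX⟩ : ∃ X : ℂ → ℂ, X = fun z => Λ (1 + z) := ⟨_, rfl⟩
  have hXd : Differentiable ℂ X := by
    rw [hX]
    exact hd.comp (by fun_prop)
  rw [← hX] at hD
  obtain ⟨C, hC, h⟩ := hD.fin hXd (by
    obtain ⟨z, hz⟩ := hne
    exact ⟨z, by rw [hX]; exact hz⟩) hc
  refine ⟨C, hC, fun δ T hδ hT => ?_⟩
  obtain ⟨h1, h2, -⟩ := h δ T hδ hT
  have himg : Off Λ δ T = (fun z : ℂ => 1 + z) '' (Pool.Agent.Y22.RX.S X δ T) := by
    ext s
    constructor
    · rintro ⟨a1, a2, a3, a4⟩
      have e : (1 : ℂ) + (s - 1) = s := by ring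
      refine ⟨s - 1, ⟨?_, ?_, ?_, ?_⟩, e⟩
      · rw [hX]
        show Λ (1 + (s - 1)) = 0
        rw [e]
        exact a1
      · simpa using a2
      · simpa using a3
      · simpa using a4
    · rintro ⟨z, ⟨a1, a2, a3, a4⟩, rfl⟩
      refine ⟨?_, ?_, ?_, ?_⟩
      · rw [hX] at a1
        exact a1
      · simpa using a2
      · simpa using a3
      · simpa using a4
  have hord : ∀ z : ℂ, analyticOrderNatAt Λ (1 + z) = analyticOrderNatAt X z := by
    intro z
    have h3 : analyticOrderAt X z = analyticOrderAt Λ (1 + z) := by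
      rw [hX]
      have h4 : deriv (fun z : ℂ => 1 + z) z ≠ 0 := by
        rw [deriv_const_add]
        simp
      exact analyticOrderAt_comp_of_deriv_ne_zero (f := Λ) (g := fun z : ℂ => 1 + z) (by fun_prop) h4
    unfold analyticOrderNatAt
    rw [h3]
  refine ⟨by rw [himg]; exact h1.image _, ?_⟩
  have hnum : num Λ (Off Λ δ T) = ∑ᶠ s ∈ Pool.Agent.Y22.RX.S X δ T, analyticOrderNatAt X s := by
    unfold num
    rw [himg, finsum_mem_image (fun a _ b _ hab => add_left_cancel hab)]
    exact finsum_mem_congr rfl fun z _ => hord z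
  rw [hnum]
  exact h2

/-- **Main theorem.**  Let `E : y² = x³ + a x + b` be an elliptic curve over `ℚ` with newform `f` of level `N`, and let
`K` be an abelian number field of conductor prime to `N`, given by its group `G` of Dirichlet characters modulo `M`.
Then `Λ(E/K, s)` exists, is unique, has a functional equation, all its zeros are in the strip `1/2 ≤ Re s ≤ 3/2`, and for
every `c < 1` there is `C` such that for all `δ ≥ 0` and `T ≥ 2` the number of its zeros with imaginary part in `(0, T]`
and distance at least `δ` from the line `Re s = 1`, counted with multiplicity, is at most `C T^(1 - c δ) log T`. -/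
theorem result : ∀ (a b : ℤ) (N : ℕ) [NeZero N] (f : CuspForm (Gamma0 N : Subgroup (GL (Fin 2) ℝ)) 2) (w : ℝ),
    4 * a ^ 3 + 27 * b ^ 2 ≠ 0 → IsFormOf a b N f w →
    ∀ (M : ℕ) [NeZero M] (G : Subgroup (DirichletCharacter ℂ M)) [Fintype G], Nat.Coprime M N →
    ∃ Λ : ℂ → ℂ, IsCompleted G f Λ ∧ (∀ Λ' : ℂ → ℂ, IsCompleted G f Λ' → Λ' = Λ) ∧
      (∃ W : ℂ, ‖W‖ = 1 ∧ ∀ s : ℂ, Λ (2 - s) = W * conj (Λ (conj s))) ∧
      (∀ s : ℂ, Λ s = 0 → |s.re - 1| ≤ 1 / 2) ∧
      ∀ c : ℝ, c < 1 → ∃ C : ℝ, 0 < C ∧ ∀ δ T : ℝ, 0 ≤ δ → 2 ≤ T →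
        (Off Λ δ T).Finite ∧ (num Λ (Off Λ δ T) : ℝ) ≤ C * T ^ (1 - c * δ) * Real.log T := by
  obtain ⟨C, hC, -, H2⟩ := Pool.Agent.TH839.UH.flow_all
  intro a b N _ f w _ hf M _ G _ hco
  have hf' : Pool.Agent.W169.HF.IsForm N f w :=
    { one := hf.one
      real := hf.real
      mul := hf.mul
      pow := hf.pow
      sign := hf.sign
      fricke := hf.fricke
      good := hf.good
      bad := fun p hp hpN => by
        have h1 : (1 : ℝ) ≤ Real.sqrt p := by
          rw [Real.one_le_sqrt]
          exact_mod_cast hp.one_le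
        have h2 : ‖coef f p‖ ≤ 1 := by
          rcases hf.bad p hp hpN with h | h | h <;> simp [h]
        exact h2.trans h1 }
  obtain ⟨Λ, h1, h2, h3, -⟩ := H2 N f w M G hf' hco
  obtain ⟨h5, h6, h7⟩ := Pool.Agent.V11271.GR.dens_ab G hf' hco h1 h2
  refine ⟨Λ, ⟨h1, h2⟩, fun Λ' h' => Pool.Agent.W355.UN.Pk.uniq h1 h'.1 h2 h'.2, h3, fun s hs => ?_,
    fun c hc => transfer h1 h5 h7 hc⟩
  have h8 := h6 (s - 1) (by
    have e : (1 : ℂ) + (s - 1) = s := by ring
    rw [e]
    exact hs)
  simpa using h8

end Pool.Agent.Results.MP_fb225e_nt.ZeroDensityAbelian
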